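import Pool.Agent.Run7.h23.Gn.Zero
import Pool.Agent.Run7.h23.Gn.Idl

/-!
# Symmetric powers of hyperelliptic curves: one closed set contains the points over all the 2-extensions

Let `F` be a number field, `g ≥ 1`, `T` a finite set of primes of `F`, and `K₀` any finite extension of `F`.

Theorem. There are a finite set `S` of primes of `F` (not over `2`, not in `T`, completely split in `K₀`)
and `c > 0` such that for all large `B` at least `c` times the number of ALL monic polynomials
`f` of degree `2 g + 1` over `𝓞 F` without term of degree `2 g` and of height at most `B` are irreducible and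
minimal and have the following property. For EVERY finite Galois extension `K / F` of 2-power degree in which
* the primes over `2`, the primes in `S` and the real places of `F` split completely,
* every ramified prime `𝔭` is in `T` or `f` is irreducible modulo `𝔭`,

(1) the ring `K[x, y] / (y ^ 2 - f(x))` is a principal ideal ring, that is, `J(K) = 0` for the Jacobian `J` of the curve
`C : y ^ 2 = f(x)`;
(2) every nonzero ideal of codimension at most `2 g` in this ring is generated by a polynomial in `x`;
(3) `f` is not a square modulo any polynomial in `K[x]` of degree `1, …, 2 g`.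

There is no bound on the degree of `K`, its Galois group (any 2-group) or the number of ramified primes, and the
conditions on `K` are stable under composita.

Geometric meaning of (2). The effective divisors of degree `d` on `C` which are rational over `K`, that is, the
`K`-rational points of the symmetric power `C^(d)`, are the `I + m ∞` with a nonzero ideal `I` of codimension `d - m`.
So for `d ≤ 2 g` all the `K`-rational points of `C^(d)` for all these `K` are in the closed subset `Z_d` of the
divisors `π^* D + m ∞` with `D` a divisor of the line, `π = x : C → ℙ¹`. Its dimension is at most `d / 2`, and it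
does not depend on `K`. For `1 ≤ d ≤ g - 1` the variety `C^(d)` is of general type; for `g ≤ d ≤ 2 g` it is not, but
the statement gives one proper closed set `Z` with `Y(K) ⊂ Z` for all these `K` for every variety `Y` with a dominant
rational map to `C^(d)` which is a morphism on `Y` (for example for the cyclic coverings of `C^(d)` of
general type; for `d > g` they are not subvarieties of abelian varieties). The bound `2 g` is best possible,
because of the divisor of the points `(θ, 0)`, `f(θ) = 0`.

The proof. Uniquely 2-divisible `J(K)` for all the `K`: see `MP_a43263_nt.UniformOddHyperelliptic` and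
`Run7/h23/Gn` (the project PF of helper783 in the starting tree). New here: the local theorem at the primes over `2`
(`Run7/h23/Lo`). Let `O` be a discrete valuation ring with perfect residue field of characteristic two and
`f = A ^ 2 + x B ^ 2 + π E` with `B` monic of degree `g` and `E` prime to `x B` modulo `π`. Then a 2-divisible group of
ideal classes of `K[x, y] / (y ^ 2 - f)` is trivial. The scheme `O[x, y] / (y ^ 2 - f)` is regular, its special
fibre is a rational curve with cusps `t ↦ (t ^ 2, A(t ^ 2) + t B(t ^ 2))`, and the kernel of the reduction modulo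
`π ^ s` is contracted by the multiplication by two. This is done with ideals and spaces of functions with
bounded pole order: every class contains ideals prime to the cusps and to infinity (the ideals modulo
`y + A` are principal, Nakayama; counting of dimensions), the class of a divisible ideal is trivial modulo all
powers of `π`, and the Artin-Rees lemma gives a generator. In the family we prescribe `f` modulo `v ^ 2` for all `v`
over `2`. The descent and the counting are as before.
-/

set_option autoImplicit false
set_option linter.all false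

namespace Pool.Agent.Results.MP_7ede32_ag.OneSetAllTwoExtensions

open Filter NumberField IsDedekindDomain Polynomial
open scoped Classical

section defs

variable (F : Type) [Field F] [NumberField F]

/-- All monic polynomials of degree `2 g + 1` with coefficients in the ring of integers of `F`, without term
of degree `2 g`, such that all conjugates of the coefficient of `x ^ j` have absolute value at
most `B ^ (2 g + 1 - j)`. -/
def Polys (g B : ℕ) : Set ((𝓞 F)[X]) :=
  {f | f.Monic ∧ f.natDegree = 2 * g + 1 ∧ f.coeff (2 * g) = 0 ∧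
    ∀ j ≤ 2 * g, ∀ σ : F →+* ℂ, ‖σ (f.coeff j : F)‖ ≤ (B : ℝ) ^ (2 * g + 1 - j)}

variable {F}

/-- The polynomial over the extension `K` of `F`. -/
noncomputable def overK (K : Type) [Field K] [Algebra F K] (f : (𝓞 F)[X]) : K[X] :=
  (f.map (algebraMap (𝓞 F) F)).map (algebraMap F K)

/-- The equation `y ^ 2 = f(x)` is minimal: there is no prime `𝔭` such that `𝔭 ^ (2 i)` divides the coefficient
of `x ^ (2 g + 1 - i)` for all `i > 0`. -/
def IsMinimal (g : ℕ) (f : (𝓞 F)[X]) : Prop :=
  ∀ 𝔭 : Ideal (𝓞 F), 𝔭.IsPrime → 𝔭 ≠ ⊥ → ¬ ∀ j ≤ 2 * g, f.coeff j ∈ 𝔭 ^ (2 * (2 * g + 1 - j))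

/-- `f` is irreducible modulo the prime `𝔭`. -/
def IrreducibleMod (𝔭 : HeightOneSpectrum (𝓞 F)) (f : (𝓞 F)[X]) : Prop :=
  Irreducible (f.map (Ideal.Quotient.mk 𝔭.asIdeal))

variable (K : Type) [Field K] [NumberField K] [Algebra F K]

/-- The prime `𝔭` of `F` splits completely in `K`: for every prime `𝔓` over `𝔭` the square of `𝔓` does not divide
`𝔭` and every integer of `K` is congruent to an integer of `F` modulo `𝔓`. -/
def SplitsCompletely (𝔭 : HeightOneSpectrum (𝓞 F)) : Prop :=
  ∀ 𝔓 : HeightOneSpectrum (𝓞 K), 𝔭.asIdeal.map (algebraMap (𝓞 F) (𝓞 K)) ≤ 𝔓.asIdeal →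
    ¬ 𝔭.asIdeal.map (algebraMap (𝓞 F) (𝓞 K)) ≤ 𝔓.asIdeal ^ 2 ∧
      ∀ y : 𝓞 K, ∃ x : 𝓞 F, y - algebraMap (𝓞 F) (𝓞 K) x ∈ 𝔓.asIdeal

/-- The prime `𝔭` of `F` is ramified in `K`. -/
def Ramified (𝔭 : HeightOneSpectrum (𝓞 F)) : Prop :=
  ∃ 𝔓 : HeightOneSpectrum (𝓞 K), 𝔭.asIdeal.map (algebraMap (𝓞 F) (𝓞 K)) ≤ 𝔓.asIdeal ^ 2

/-- The conditions on the Galois extension `K / F`: the degree is a power of two, the primes over `2`, the
primes in `S` and the real places (for a Galois extension: every embedding of `F` in `ℝ` extends to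
`K`) split completely, and every ramified prime is in `T` or `f` is irreducible modulo it. -/
structure Allowed (S T : Finset (HeightOneSpectrum (𝓞 F))) (f : (𝓞 F)[X]) : Prop where
  degree : ∃ n : ℕ, Module.finrank F K = 2 ^ n
  two : ∀ 𝔭 : HeightOneSpectrum (𝓞 F), (2 : 𝓞 F) ∈ 𝔭.asIdeal → SplitsCompletely K 𝔭
  split : ∀ 𝔭 ∈ S, SplitsCompletely K 𝔭
  real : ∀ ρ : F →+* ℝ, ∃ τ : K →+* ℝ, ∀ x : F, τ (algebraMap F K x) = ρ x
  ramified : ∀ 𝔭 : HeightOneSpectrum (𝓞 F), Ramified K 𝔭 → 𝔭 ∈ T ∨ IrreducibleMod 𝔭 f

/-- The affine coordinate ring `K[x, y] / (y ^ 2 - f(x))` of the curve over `K`. -/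
abbrev CoordRing (f : (𝓞 F)[X]) : Type := AdjoinRoot (X ^ 2 - C (overK K f) : K[X][X])

/-- The properties over `K`. -/
structure OnlyPullbacks (g : ℕ) (f : (𝓞 F)[X]) : Prop where
  /-- all ideals of the coordinate ring are principal -/
  principal : IsPrincipalIdealRing (CoordRing K f)
  /-- the ideals of codimension at most `2 g` are generated by polynomials in `x` -/
  divisors : ∀ I : Ideal (CoordRing K f), I ≠ ⊥ → Module.finrank K (CoordRing K f ⧸ I) ≤ 2 * g →
    ∃ p : K[X], I = Ideal.span {AdjoinRoot.of (X ^ 2 - C (overK K f) : K[X][X]) p}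
  /-- `f` is not a square modulo polynomials of degree `1, …, 2 g` -/
  squares : ∀ u v : K[X], 0 < u.natDegree → u.natDegree ≤ 2 * g → ¬ u ∣ overK K f - v ^ 2

/-- The property of `f` in the theorem. -/
def Uniform (S T : Finset (HeightOneSpectrum (𝓞 F))) (g : ℕ) (f : (𝓞 F)[X]) : Prop :=
  ∀ (K : Type) [Field K] [NumberField K] [Algebra F K] [IsGalois F K], Allowed K S T f →
    OnlyPullbacks K g f

end defs

theorem ht_iff {F : Type} [Field F] [NumberField F] (g B : ℕ) (f : (𝓞 F)[X]) :
    Pool.Agent.N783.PF.Ht g B f ↔ f ∈ Polys F g B :=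
  ⟨fun h => ⟨h.mon, h.deg, h.tr, h.ht⟩, fun h => ⟨h.1, h.2.1, h.2.2.1, h.2.2.2⟩⟩

theorem mem (F : Type) [Field F] [NumberField F] (g B : ℕ) : (X ^ (2 * g + 1) : (𝓞 F)[X]) ∈ Polys F g B := by
  refine ⟨monic_X_pow _, natDegree_X_pow _, ?_, fun j hj σ => ?_⟩
  · rw [coeff_X_pow, if_neg (by omega)]
  · rw [coeff_X_pow, if_neg (by omega)]
    simp

/-- For every number field `F`, every `g ≥ 1`, every finite set `T` of primes of `F` and every finite
extension `K₀` of `F` there are a finite set `S` of primes of `F`, not over `2`, not in `T` and completely split in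
`K₀`, and `c > 0` such that for all large `B` at least `c` times the number of all monic polynomials `f` of
degree `2 g + 1` over the ring of integers without term of degree `2 g` and of height at most `B` are irreducible
over `F`, minimal, and have the property: for EVERY finite Galois extension `K` of `F` of 2-power degree in
which the primes over `2`, the primes in `S` and the real places split completely and every ramified prime
is in `T` or is a prime modulo which `f` is irreducible, the ring `K[x, y] / (y ^ 2 - f(x))` is a principal ideal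
ring, its nonzero ideals of codimension at most `2 g` are generated by polynomials in `x`, and `f` is not a square
modulo any polynomial over `K` of degree `1, …, 2 g`. -/
theorem result (F : Type) [Field F] [NumberField F] (g : ℕ) (hg : 1 ≤ g)
    (T : Finset (HeightOneSpectrum (𝓞 F))) (K₀ : Type) [Field K₀] [NumberField K₀] [Algebra F K₀] :
    ∃ S : Finset (HeightOneSpectrum (𝓞 F)),
      (∀ 𝔭 ∈ S, (2 : 𝓞 F) ∉ 𝔭.asIdeal ∧ 𝔭 ∉ T ∧ SplitsCompletely K₀ 𝔭) ∧
      ∃ c : ℝ, 0 < c ∧ ∀ᶠ B : ℕ in atTop,
        (Polys F g B).Finite ∧ 0 < (Polys F g B).ncard ∧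
        c * ((Polys F g B).ncard : ℝ) ≤
          (({f ∈ Polys F g B | Irreducible (f.map (algebraMap (𝓞 F) F)) ∧ IsMinimal g f ∧
            Uniform S T g f}).ncard : ℝ) := by
  obtain ⟨S, hS, c, hc, B₀, h⟩ := Run7.h23.Gn.mainI2 g F hg T K₀
  refine ⟨S, fun v hv => ?_, c, hc, ?_⟩
  · obtain ⟨h1, h2, h3⟩ := hS v hv
    exact ⟨h1, h2, Run7.h23.Gn.spI_of_sp h3⟩
  filter_upwards [eventually_ge_atTop B₀] with B hB
  obtain ⟨hfin, hle⟩ := h B hB
  have hset : {f : (𝓞 F)[X] | Pool.Agent.N783.PF.Ht g B f} = Polys F g B := by
    ext f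
    exact ht_iff g B f
  rw [hset] at hfin hle
  refine ⟨hfin, (Set.ncard_pos hfin).2 ⟨_, mem F g B⟩, hle.trans ?_⟩
  have h3 : {f : (𝓞 F)[X] | Pool.Agent.N783.PF.Ht g B f ∧
      Irreducible (Pool.Agent.N783.PF.fF f) ∧ Pool.Agent.N783.PF.Min g f ∧
      Run7.h23.Gn.GoodP S T f ∧ ∀ v : HeightOneSpectrum (𝓞 F), (2 : 𝓞 F) ∈ v.asIdeal →
        Run7.h23.Lo.RegAt v g f} ⊆
      {f ∈ Polys F g B | Irreducible (f.map (algebraMap (𝓞 F) F)) ∧ IsMinimal g f ∧
        Uniform S T g f} := by
    rintro f ⟨hf, hi, hm, hg', hR⟩
    refine ⟨(ht_iff g B f).1 hf, hi, hm, ?_⟩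
    intro K _ _ _ _ hK
    obtain ⟨n, hn⟩ := hK.degree
    obtain ⟨h4, h5⟩ := hg' K n hn (fun v hv => Run7.h23.Gn.sp_of_spI (hK.two v hv))
      (fun v hv => Run7.h23.Gn.sp_of_spI (hK.split v hv)) hK.real
      (fun v hv => hK.ramified v (by
        by_contra hc
        exact hv (Run7.h23.Gn.un_of_not hc)))
    have h6 := Pool.Agent.N783.PF.jac (f := f.map (algebraMap (𝓞 F) (𝓞 K))) (hf.mon.map _)
      (by rw [hf.mon.natDegree_map, hf.deg]; exact odd_two_mul_add_one g) h4 h5
    rw [Run7.h23.Gn.fF_map] at h6 h4
    have hP : (f.map (algebraMap (𝓞 F) (𝓞 K))).map (algebraMap (𝓞 K) K) = overK K f :=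
      Run7.h23.Gn.fF_map f
    have h7 := Run7.h23.Gn.cls_zero (K := K) hf.mon hf.deg hR
      (fun v hv w hw => (hK.two v hv w hw).1) hP h4 h6.1
    have hPm : (overK K f).Monic := by rw [← hP]; exact (hf.mon.map _).map _
    have hPd : (overK K f).natDegree = 2 * g + 1 := by
      rw [← hP, (hf.mon.map _).natDegree_map, hf.mon.natDegree_map, hf.deg]
    have hG := Run7.h23.Gn.good_of hPm h4 (by rw [hPd]; exact odd_two_mul_add_one g)
    haveI := Pool.Agent.Y160.SE.hyps.ring 2 K (-1) _ hG
    refine ⟨⟨fun I => ?_⟩, fun I hI hle => Run7.h23.Lo.low hG hPd h7 hI hle,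
      fun u v h0 h1 => Run7.h23.Lo.not_sq hG hPd h7 u v h0 h1⟩
    by_cases hI : I = ⊥
    · rw [hI]; infer_instance
    · obtain ⟨z, hz⟩ := Run7.h23.Lo.principal_of_eqv (h7 I hI)
      exact ⟨z, by rw [Ideal.submodule_span_eq]; exact hz⟩
  have h4 := Set.ncard_le_ncard h3 (hfin.subset fun f hf => hf.1)
  exact_mod_cast h4

end Pool.Agent.Results.MP_7ede32_ag.OneSetAllTwoExtensions
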