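import Mathlib
import Pool.Agent.Run7.h972.LS.First
import Pool.Agent.Run7.h972.LS.SL

/-!
# Lang's strong conjecture is a question on smooth hypersurfaces

Let `X = V(S)` be any projective variety in `P^n`, `n ≥ 1` (any dimension and any singularities), over a
number field `k` in `ℂ`, given by forms of degree at most `d`, `d ≥ 3`, and `v : P^n → P^N` the Veronese
embedding of degree `d`. For all `D ≥ D₁(N)` there are quadratic forms `Q_t`, `t < N (2 N + 1)`, over `k`
such that the hypersurface

`Y : ∑ t, Q_t(y) (y_0 + t y_1 + ⋯ + t^N y_N)^D = 0`

is smooth, contains `v(X)`, and all entire curves in `Y` and all closed subvarieties of `Y` of positive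
dimension which are not of general type lie in `v(X)` (`Through`, for all fields `k` in `ℂ`).

For every projective variety `Y` over a number field there is a smallest closed subset `Z(Y)` such
that `(Y ∖ Z(Y))(K)` is finite for all number fields `K`; a form vanishes on it if and only if it is in
`FiniteOff`. Lang's strong conjecture Q1, for all varieties over all number fields in `ℂ`, is
equivalent to: *if `Y` is one of the smooth hypersurfaces above, over a number field, then no
component of `Z(Y)` of positive dimension is of general type*; here `D` may be restricted to any given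
infinite set `E`.

Q1 for a smooth variety is Q1 for its projective closure (remove the boundary and the singular
points), and in dimension `0` there is nothing to prove, so `StrongLang` is Q1.

Proof. Suppose that the condition holds and `X` is a geometrically irreducible variety of general type
over `k`. Choose `Y ⊇ v(X)` as above. If `v(X) ⊆ Z(Y)`, then `v(X)` is in a component of `Z(Y)`, which is
of positive dimension and by assumption not of general type, so it is in `v(X)` by the choice of `Y`;
so `v(X)` is a component of `Z(Y)`, but it is of general type, a contradiction. So some form `G` with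
complex coefficients, with finitely many points of `Y(K)` outside `G = 0` for all number fields `K`, does
not vanish on `v(X)`. It is a combination of forms over the algebraic numbers which vanish at all
algebraic points of `G = 0` (linear algebra), so `G` may be replaced by a form over the algebraic
numbers, and by the product of its conjugates it may be replaced by a form over `k` (Galois theory and
the Nullstellensatz). Conversely a component of positive dimension of `Z(Y)` has a dense set of
algebraic points, so it is defined over a number field, and Q1 for it gives a smaller closed subset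
than `Z(Y)`, if it is of general type.
-/

set_option autoImplicit false

namespace Pool.Agent.Results.MP_7ede32_ag.SmoothHypersurfacesSuffice

open MvPolynomial
open Pool.Agent.W602.GT (SubVar GeneralType)
open Pool.Agent.N254.SQ (IsForm GenericPoint FiniteOff Component SmoothOver powerFormOver Monomials
  veronese)

/-- Q1: for every geometrically irreducible projective variety `X = V(S)` of general type and of
positive dimension `w`, over a number field `k` in `ℂ`, there is a form `G` over `k` which does not vanish
on `X` such that for all number fields `K` only finitely many `K`-rational points of `X` are outside of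
`G = 0`. -/
def StrongLang : Prop :=
  ∀ k : IntermediateField ℚ ℂ, FiniteDimensional ℚ k →
  ∀ (n : ℕ) (S : Set (MvPolynomial (Fin (n + 1)) k)), (∀ p ∈ S, ∃ e, p.IsHomogeneous e) →
    ∀ (L : Type) [Field L] [Algebra ℂ L] (w : ℕ) (y : Fin (n + 1) → L), 1 ≤ w →
      GenericPoint S L w y → GeneralType ℂ L w →
      ∃ G : MvPolynomial (Fin (n + 1)) k, (∃ e, G.IsHomogeneous e) ∧
        aeval y (map (algebraMap k ℂ) G) ≠ 0 ∧
        FiniteOff (map (algebraMap k ℂ) '' S) (map (algebraMap k ℂ) G)

/-- no component of positive dimension of the smallest closed subset `Z(Y)` of the hypersurface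
`Y = {A = 0}`, outside of which there are only finitely many points over every number field, is of
general type -/
def NoGeneralComponent {N : ℕ} (A : MvPolynomial (Fin (N + 1)) ℂ) : Prop :=
  ∀ (L : Type) [Field L] [Algebra ℂ L] (w : ℕ) (y : Fin (N + 1) → L), 1 ≤ w →
    SubVar (fun _ : Unit => A) L w y → GeneralType ℂ L w → ¬ Component (FiniteOff {A}) y

/-- the smooth hypersurfaces through the Veronese images of all projective varieties -/
def Through (D₁ : ℕ → ℕ) : Prop :=
  ∀ n d : ℕ, 1 ≤ n → 3 ≤ d → ∃ (N : ℕ) (m : Fin (N + 1) → Fin (n + 1) → ℕ),
    Monomials n N d m ∧ ∀ D, D₁ N ≤ D → ∀ (K : Type) [Field K] [CharZero K] (σ : K →+* ℂ)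
      (S : Set (MvPolynomial (Fin (n + 1)) K)), (∀ p ∈ S, ∃ e ≤ d, p.IsHomogeneous e) →
      ∃ Q : Fin (N * (2 * N + 1)) → MvPolynomial (Fin (N + 1)) K,
        (∀ t, (Q t).IsHomogeneous 2) ∧ SmoothOver (powerFormOver D Q) ∧
        (∀ x : Fin (n + 1) → ℂ, (∀ p ∈ S, eval₂ σ x p = 0) →
          eval₂ σ (veronese m x) (powerFormOver D Q) = 0) ∧
        (∀ f : ℂ → Fin (N + 1) → ℂ, Differentiable ℂ f → (∀ z, f z ≠ 0) →
          (∀ z, eval₂ σ (f z) (powerFormOver D Q) = 0) → (∀ z w, ∃ c : ℂ, f w = c • f z) ∨
            ∀ z, ∃ x : Fin (n + 1) → ℂ, (∀ p ∈ S, eval₂ σ x p = 0) ∧ f z = veronese m x) ∧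
        ∀ (L : Type) [Field L] [Algebra ℂ L] (w : ℕ) (y : Fin (N + 1) → L), 1 ≤ w →
          SubVar (fun _ : Unit => map σ (powerFormOver D Q)) L w y → GeneralType ℂ L w ∨
            ∃ (x : Fin (n + 1) → L) (c : L), c ≠ 0 ∧ (∀ p ∈ S, aeval x (map σ p) = 0) ∧
              y = c • veronese m x

theorem result : ∃ D₁ : ℕ → ℕ, Through D₁ ∧
    ∀ E : Set ℕ, E.Infinite → (StrongLang ↔
      ∀ k : IntermediateField ℚ ℂ, FiniteDimensional ℚ k →
      ∀ (N D : ℕ) (Q : Fin (N * (2 * N + 1)) → MvPolynomial (Fin (N + 1)) k), D ∈ E →
        D₁ N ≤ D → (∀ t, (Q t).IsHomogeneous 2) → SmoothOver (powerFormOver D Q) →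
        NoGeneralComponent (map (algebraMap k ℂ) (powerFormOver D Q))) := by
  obtain ⟨D₁, H⟩ := Run7.h972.LS.t_cons
  exact ⟨D₁, Run7.h972.LS.through H, fun E hE => ⟨fun h k hk N D Q _ _ _ _ =>
    Run7.h972.LS.sl_forw h _, fun h => Run7.h972.LS.sl_back hE H h⟩⟩

end Pool.Agent.Results.MP_7ede32_ag.SmoothHypersurfacesSuffice
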