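import Pool.Agent.Run7.h128.FG.Conv

/-!
# Sums of almost units in families of varieties which are not uniruled

Let `k` be a number field and `𝒳 ⊂ 𝔸^q × ℙ^n` an integral closed subvariety over `k`, considered as a
family of projective varieties `𝒳_t`, `t ∈ B`, over its image `B` in the affine space. It is given by
polynomials `F_1, …, F_m` in the parameters `t = (t_1, …, t_q)` and in `n + 1` homogeneous coordinates,
homogeneous in the latter, which generate a prime ideal (`q = 0` is the case of one projective variety).
`fib t F` is the form `F(t; ·)`.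

`FibreUniruled`: the generic fibre of the family is uniruled. It is not uniruled if, for instance, it
is of general type (and of positive dimension).

The homogeneous coordinates of a point `x` of `𝒳_t` over a number field `K ⊇ k` are written in any way
as a sum `x = y_1 + ⋯ + y_r` of vectors of `K^(n+1)`. For a finite set `S` of finite places of `K`,

  `N_S(y) = outside S y = ∑_{w ∉ S} ∑_{(j, a), y_(j,a) ≠ 0} log (max_i |y_i|_w / |y_(j,a)|_w)`

measures how far the `r (n + 1)` numbers `y_(j, a)` are from being proportional to `S`-units.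
`h(t)` is the sum of the heights of the coordinates of `t`.

THEOREM. (1) If the generic fibre is not uniruled, then for every `r` there is ONE proper closed subset
`𝒵 = {H = 0}` of `𝒳`, over `k`, such that for ALL number fields `K ⊇ k` and ALL finite sets `S` of
finite places of `K` there is a constant `C` with

  `h(x) ≤ C (1 + h(t) + N_S(y))`

for all `t ∈ B(K)`, all points `x` of `𝒳_t(K)` off `𝒵` and all decompositions `x = y_1 + ⋯ + y_r`.
Hence for some `ε > 0` all the fibres together have only finitely many points `x ∉ 𝒵`, over `K`,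
which have a decomposition with `h(t) + N_S(y) ≤ ε h(x)`.

(2) If the generic fibre is uniruled, this fails: for some `r` and for every proper closed subset
`𝒵 = {H = 0}` there are `K`, `S` and one fibre `𝒳_t` over `K` which has points off `𝒵` of unbounded
height that are sums of `r` vectors with `N_S(y) = 0`.

Proof of (1). By the dichotomy of `Pool/Agent/Run7/h128/AU/Main.lean`, which is uniform in the variety,
the inequality holds unless `x` lies on a nonconstant rational curve
`T ↦ ∑_j (y_(j, a) T ^ (l_(j, a)))_a` in `𝒳_t`. The rational curves with `r (n + 1)` terms in the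
fibres lie in one hypersurface `H = 0`, as only the coincidences between the exponents matter and as
the generic point of `𝒳` is not on such a curve (`FG/Cur.lean`, adapted from the starting file
`Pool/Agent/H533R3/SL/Cur.lean`).
-/

set_option autoImplicit false

namespace Pool.Agent.Results.MP_7ede32_ag.SumsOfAlmostUnitsInFamilies

open NumberField Height MvPolynomial Run7.h128.FG
open Run7.h128.AU (outside outside_nonneg)

theorem result (k : Type) [Field k] [NumberField k] (q n m : ℕ) (e : Fin m → ℕ)
    (F : Fin m → MvPolynomial (Fin (n + 1)) (MvPolynomial (Fin q) k))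
    (hF : ∀ i, (F i).IsHomogeneous (e i)) (hprime : (Ideal.span (Set.range F)).IsPrime) :
    -- (1) families whose generic fibre is not uniruled
    (¬ FibreUniruled (Ideal.span (Set.range F)) → ∀ r : ℕ,
      ∃ H : MvPolynomial (Fin (n + 1)) (MvPolynomial (Fin q) k), (∃ d, H.IsHomogeneous d) ∧
        H ∉ Ideal.span (Set.range F) ∧
        ∀ (K : Type) [Field K] [NumberField K] [Algebra k K] (S : Finset (FinitePlace K)),
          (∃ C : ℝ, ∀ (t : Fin q → K) (y : Fin r → Fin (n + 1) → K), (fun a => ∑ j, y j a) ≠ 0 →
            (∀ i, eval (fun a => ∑ j, y j a) (fib t (F i)) = 0) →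
            eval (fun a => ∑ j, y j a) (fib t H) ≠ 0 →
            logHeight (fun a => ∑ j, y j a) ≤ C * (1 + ∑ i, logHeight₁ (t i) +
              outside S fun p : Fin r × Fin (n + 1) => y p.1 p.2)) ∧
          ∃ ε : ℝ, 0 < ε ∧
            {P : (Fin q → K) × Projectivization K (Fin (n + 1) → K) |
              ∃ (y : Fin r → Fin (n + 1) → K) (h : (fun a => ∑ j, y j a) ≠ 0),
                P.2 = Projectivization.mk K _ h ∧
                (∀ i, eval (fun a => ∑ j, y j a) (fib P.1 (F i)) = 0) ∧
                eval (fun a => ∑ j, y j a) (fib P.1 H) ≠ 0 ∧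
                ∑ i, logHeight₁ (P.1 i) + (outside S fun p : Fin r × Fin (n + 1) => y p.1 p.2) ≤
                  ε * logHeight (fun a => ∑ j, y j a)}.Finite) ∧
    -- (2) families whose generic fibre is uniruled
    (FibreUniruled (Ideal.span (Set.range F)) → ∃ r : ℕ,
      ∀ H : MvPolynomial (Fin (n + 1)) (MvPolynomial (Fin q) k), (∃ d, H.IsHomogeneous d) →
        H ∉ Ideal.span (Set.range F) →
        ∃ (K : Type) (_ : Field K) (_ : NumberField K) (_ : Algebra k K)
          (S : Finset (FinitePlace K)) (t : Fin q → K), ∀ B : ℝ,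
          ∃ y : Fin r → Fin (n + 1) → K, (fun a => ∑ j, y j a) ≠ 0 ∧
            (∀ i, eval (fun a => ∑ j, y j a) (fib t (F i)) = 0) ∧
            eval (fun a => ∑ j, y j a) (fib t H) ≠ 0 ∧
            (outside S fun p : Fin r × Fin (n + 1) => y p.1 p.2) = 0 ∧
            B < logHeight (fun a => ∑ j, y j a)) := by
  refine ⟨fun hnu r => ?_, fun hu => backward F hu⟩
  obtain ⟨H, hH1, hH2, hH3⟩ := forward e F hF hprime hnu r
  refine ⟨H, hH1, hH2, fun K _ _ _ S => ⟨hH3 K S, ?_⟩⟩
  obtain ⟨C, hC⟩ := hH3 K S
  have hC1 : 1 ≤ max C 1 := le_max_right _ _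
  refine ⟨1 / (2 * max C 1), by positivity, ?_⟩
  have hT : {t : Fin q → K | ∀ i, mulHeight₁ (t i) ≤ Real.exp (2 * max C 1)}.Finite := by
    have h1 := Set.Finite.pi' (fun _ : Fin q =>
      (finite_setOfPred_mulHeight₁_le K (Real.exp (2 * max C 1)) : {a : K | _}.Finite))
    simpa using h1
  refine (hT.prod (Pool.Agent.TH409.SH.northcott_proj (n := n) K
    (Real.exp (2 * max C 1)))).subset ?_
  rintro ⟨t, P⟩ ⟨y, hx, hP, h0, hHx, hy⟩
  simp only at hP h0 hHx hy
  have hs : 0 ≤ ∑ i, logHeight₁ (t i) := Finset.sum_nonneg fun i _ => zero_le_logHeight₁ _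
  have h5 := outside_nonneg S fun p : Fin r × Fin (n + 1) => y p.1 p.2
  have h6 : logHeight (fun a => ∑ j, y j a) ≤ max C 1 * (1 + ∑ i, logHeight₁ (t i) +
      outside S fun p : Fin r × Fin (n + 1) => y p.1 p.2) :=
    (hC t y hx h0 hHx).trans (mul_le_mul_of_nonneg_right (le_max_left _ _) (by linarith))
  have h7 : max C 1 * (1 / (2 * max C 1) * logHeight (fun a => ∑ j, y j a)) =
      logHeight (fun a => ∑ j, y j a) / 2 := by
    field_simp
  have h8 : max C 1 * (∑ i, logHeight₁ (t i) +
      outside S fun p : Fin r × Fin (n + 1) => y p.1 p.2) ≤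
      logHeight (fun a => ∑ j, y j a) / 2 := by
    rw [← h7]
    exact mul_le_mul_of_nonneg_left hy (by linarith)
  have h9 : logHeight (fun a => ∑ j, y j a) ≤ 2 * max C 1 := by nlinarith
  have h10 : ∑ i, logHeight₁ (t i) ≤ 2 * max C 1 := by
    have h11 : 1 / (2 * max C 1) * logHeight (fun a => ∑ j, y j a) ≤ 1 := by
      have h12 : logHeight (fun a => ∑ j, y j a) / (2 * max C 1) ≤ 1 := by
        rw [div_le_one (by positivity)]
        exact h9
      calc 1 / (2 * max C 1) * logHeight (fun a => ∑ j, y j a)
          = logHeight (fun a => ∑ j, y j a) / (2 * max C 1) := by ring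
        _ ≤ 1 := h12
    linarith
  refine Set.mem_prod.2 ⟨fun i => ?_, ⟨_, hx, hP, ?_⟩⟩
  · have h11 : logHeight₁ (t i) ≤ ∑ i, logHeight₁ (t i) :=
      Finset.single_le_sum (f := fun i => logHeight₁ (t i))
        (fun i _ => zero_le_logHeight₁ _) (Finset.mem_univ i)
    have h12 : logHeight₁ (t i) ≤ 2 * max C 1 := h11.trans h10
    rw [logHeight₁_eq_log_mulHeight₁] at h12
    exact (Real.log_le_iff_le_exp (by positivity)).1 h12
  · rw [logHeight_eq_log_mulHeight] at h9
    exact (Real.log_le_iff_le_exp (mulHeight_pos _)).1 h9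

end Pool.Agent.Results.MP_7ede32_ag.SumsOfAlmostUnitsInFamilies
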