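import Pool.Agent.Run7.h846.MainO
import Pool.Agent.Run7.h846.SecObs
import Pool.Agent.Run7.h846.Spread

/-!
# Families of superelliptic curves: one closed set for the points of the symmetric powers over all
# extensions of degree prime to `q`

Let `K` be a number field, `R` a finitely generated `K`-algebra which is a domain, with fraction field
`F`, and `s` the coordinate of the affine line over `Spec R`.  Let `q` be a prime number, `h ∈ R[s]`
nonzero and `f ∈ R[s][x]` monic in `x` of degree `n ≥ 3` divisible by `q`, and by `4` if `q = 2`.  We
consider the family of superelliptic curves `X : h(s) y ^ q = f(s, x)` over the affine line over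
`Spec R`.  We suppose that `f` is a product of factors `x - θ_i(s)` with `θ_i ∈ F̄[s]` (they may be
permuted by the Galois group of `F`) and that for some `c ∈ R` the order of vanishing of `h` at `s = c`
is prime to `q` and `f(c, x)` is separable.

**Theorem.**  The following are equivalent.
(1) `f` has a monic factor in `F[s][x]` of degree prime to `q`.
(2) The generic fibre, a curve over the function field `F(s)`, has a point over a finite extension of
`F(s)` of degree prime to `q` (its index is prime to `q`).
(3) There is a nonempty open subset of the base such that for all number fields `L` containing `K` and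
all `L`-points `b` of this open subset the fibre `X_b` has a point over a finite extension of `L` of
degree prime to `q`.
(4) The same with `K'`-rational effective divisors of degree prime to `q` on `X_b`, for a finite
extension `K' / L` of degree prime to `q`, that is, with `K'`-rational points of the symmetric powers
`X_b^(d)`, `d` prime to `q`.

So if `f` has no factor of degree prime to `q`, then there is a Zariski dense set of closed points
`b` of the base, with residue fields `L`, such that for ALL finite extensions `K' / L` of degree prime to
`q` and all `d` prime to `q` the symmetric power `X_b^(d)` has no `K'`-rational points at all; in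
particular the index of `X_b` over `K'` is divisible by `q`.  The genus of `X_b` is
`g = (q - 1) (n - 2) / 2`, and `X_b^(d)` is of general type for `1 ≤ d ≤ g - 1`.  So for `Y = X_b^(d)`, and
for every variety `Y` of general type with a rational map to `X_b^(d)`, `d` prime to `q` (of any
dimension; for `d ≥ g` they are not subvarieties of abelian varieties), there is ONE closed
subset `Z` of `Y`, the locus where the map is not defined, with `(Y - Z)(K')` empty for all these
`K'`: this is the assertion of Lang's strong conjecture for the infinitely many extensions `K'` of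
degree prime to `q`.  Nothing is assumed about local points; `f` may have roots modulo all primes and
over all completions, and then the `X_b` have points over all completions.  The condition on `n` for
`q = 2` cannot be left out: if `n = 2 m`, `m` odd, and `f` is the norm of a polynomial `g` of degree `m`
over a quadratic extension, then the class of the sum of the points `(θ, 0)`, `g(θ) = 0`, is a
rational divisor class of odd degree on all fibres.

An effective divisor consists of a closed subscheme of the affine part, with an ideal `I` of the
coordinate ring `K'[x, y] / (t y ^ q - g(x))` and degree `dim K'[x, y] / I`, and of closed points at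
infinity, which are the solutions of `t u ^ q = 1`.

Proof.  (3) ⇒ (4) is clear and (1) ⇒ (2) ⇒ (3) is spreading out.  Let (1) be wrong.  One specialises
`R` to a number field `L₀` such that the Galois group of the splitting field `M(s)` of `f` is kept, and
constructs a finite extension `L` of `L₀` and a point `s₀ ∈ L`, close to `s = c` at exactly one
place, such that the norm of `s₀` is a prime number `p` and at finitely many auxiliary primes
everything is totally ramified (`Run7/h846/Tower2`, `NfO`).  Let `K' / L` be of degree prime to `q`, let
`E' = K' M` with the roots `Θ_i` of `f(s₀, x)`, and let `(x, y)` be a `K'`-rational point.  The norms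
`a_i` of the `x - Θ_i` from `E'` to `M` lie in finitely many classes modulo `q`-th powers, and by the choice
of the auxiliary primes their quotients are powers of `p` modulo `q`-th powers.  Let `χ(i)` be the
valuation of `a_i` modulo `q` at the place of `M` below the one where `s₀` is small.  The sum of the
`χ(i)` is the product of the order of `h` at `c` and of `[E' : L M]`, so it is not `0` modulo `q`
(`OExt`), and `χ` is fixed up to constants by the subgroup `Gal(E' / K')` of `Gal(M / L₀)`, whose
index divides `[K' : L]`.  By the condition on `n` the constants are zero, a Sylow `q`-subgroup of this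
subgroup fixes some `i`, and the orbit of `i` gives a factor of `f` of degree prime to `q` (`Grp`).
-/

set_option autoImplicit false

open Polynomial

namespace Pool.Agent.Results.MP_7ede32_ag.SymmetricPowersInFamilies

/-- The affine coordinate ring `k[x, y] / (t y ^ q - g(x))`. -/
abbrev CoordRing {k : Type} [Field k] (q : ℕ) (t : k) (g : k[X]) : Type :=
  AdjoinRoot (C (C t) * X ^ q - C g : k[X][X])

/-- The smooth projective curve `t y ^ q = g(x)`, where `t ≠ 0` and `g` is monic and separable of degree
divisible by `q`, has a point over `k`: an affine point, or a point at infinity (these correspond to the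
solutions of `t u ^ q = 1`, `u = x ^ (n / q) / y`). -/
def HasPoint {k : Type} [Field k] (q : ℕ) (t : k) (g : k[X]) : Prop :=
  (∃ x y : k, t * y ^ q = g.eval x) ∨ ∃ u : k, t * u ^ q = 1

/-- The smooth projective curve `t y ^ q = g(x)` has an effective divisor over `k` of degree prime to `q`:
a closed subscheme of the affine part, of degree prime to `q`, or a closed point at infinity of degree
prime to `q`. -/
def HasDivisor {k : Type} [Field k] (q : ℕ) (t : k) (g : k[X]) : Prop :=
  (∃ I : Ideal (CoordRing q t g), ¬ q ∣ Module.finrank k (CoordRing q t g ⧸ I)) ∨
    ∃ (k' : Type) (_ : Field k') (_ : Algebra k k') (_ : FiniteDimensional k k') (u : k'),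
      ¬ q ∣ Module.finrank k k' ∧ algebraMap k k' t * u ^ q = 1

/-- The property `P` holds for the fibres `h(b) y ^ q = f(b, x)` over all points `b = (φ, s)` of the
affine line over `Spec R`, with values in finite extensions `L` of `K`, with `z(b) ≠ 0`. -/
def AllFibres (K R : Type) [Field K] [CommRing R] [Algebra K R] (h : R[X]) (f : R[X][X]) (z : R[X])
    (P : ∀ (L : Type) [Field L], L → L[X] → Prop) : Prop :=
  ∀ (L : Type) [Field L] [Algebra K L] [FiniteDimensional K L] (φ : R →ₐ[K] L) (s : L),
    z.eval₂ (φ : R →+* L) s ≠ 0 →
      P L (h.eval₂ (φ : R →+* L) s) (f.map (eval₂RingHom (φ : R →+* L) s))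

/-- The property `Q` holds for the curve `t y ^ q = g(x)` over some finite extension of `L` of degree
prime to `q`. -/
def OverPrime (q : ℕ) (Q : ∀ (k : Type) [Field k], k → k[X] → Prop) (L : Type) [Field L] (t : L)
    (g : L[X]) : Prop :=
  ∃ (L' : Type) (_ : Field L') (_ : Algebra L L') (_ : FiniteDimensional L L'),
    ¬ q ∣ Module.finrank L L' ∧ Q L' (algebraMap L L' t) (g.map (algebraMap L L'))

/-- **Symmetric powers of the members of a family.**  Suppose that `f` is monic of degree at least `3`,
divisible by `q` (by `4` if `q = 2`), and splits into factors `x - θ_i(s)` with `θ_i` in `F̄[s]`, `F` the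
fraction field of `R`, and that for some `c ∈ R` the order of `h` at `s = c` is prime to `q` and
`f(c, x)` is separable over `F`.  Then the following are equivalent: (1) `f` has a monic factor in
`F[s][x]` of degree prime to `q`; (2) the generic fibre, over the fraction field `F(s)` of `R[s]`, has a
point over a finite extension of degree prime to `q`; (3) over some nonempty open subset `z ≠ 0` of the
affine line over `Spec R` all fibres over points with values in finite extensions `L` of `K` have points
over finite extensions of `L` of degree prime to `q`; (4) over some nonempty open subset all these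
fibres have effective divisors of degree prime to `q`, rational over finite extensions of `L` of
degree prime to `q`. -/
theorem result (K : Type) [Field K] [NumberField K] (R : Type) [CommRing R] [IsDomain R]
    [Algebra K R] [Algebra.FiniteType K R] (q : ℕ) (hq : q.Prime) (h : R[X]) (f : R[X][X])
    (hf : f.Monic) (hn : 3 ≤ f.natDegree) (hqn : q ∣ f.natDegree) (h4 : q = 2 → 4 ∣ f.natDegree)
    (hsplit : (f.map (mapRingHom (algebraMap R (AlgebraicClosure (FractionRing R))))).Splits)
    (c : R) (hh : h ≠ 0) (hc : ¬ q ∣ h.rootMultiplicity c)
    (hsep : ((f.map (evalRingHom c)).map (algebraMap R (FractionRing R))).Separable) :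
    List.TFAE [
      ∃ P : (FractionRing R)[X][X], P.Monic ∧
        P ∣ f.map (mapRingHom (algebraMap R (FractionRing R))) ∧ ¬ q ∣ P.natDegree,
      OverPrime q (fun _ _ => HasPoint q) (FractionRing R[X]) (algebraMap R[X] (FractionRing R[X]) h)
        (f.map (algebraMap R[X] (FractionRing R[X]))),
      ∃ z : R[X], z ≠ 0 ∧ AllFibres K R h f z fun L _ => OverPrime q (fun _ _ => HasPoint q) L,
      ∃ z : R[X], z ≠ 0 ∧ AllFibres K R h f z fun L _ => OverPrime q (fun _ _ => HasDivisor q) L] := by
  tfae_have 3 → 4 := by
    rintro ⟨z, hz, H⟩
    refine ⟨z, hz, fun L _ _ _ φ s hs => ?_⟩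
    obtain ⟨L', _, _, _, hL', hP⟩ := H L φ s hs
    refine ⟨L', inferInstance, inferInstance, inferInstance, hL', ?_⟩
    rcases hP with ⟨x, y, hxy⟩ | ⟨u, hu⟩
    · left
      set t := algebraMap L L' (h.eval₂ (φ : R →+* L) s)
      set g := (f.map (eval₂RingHom (φ : R →+* L) s)).map (algebraMap L L')
      let π : CoordRing q t g →ₐ[L'] L' := AdjoinRoot.liftAlgHom _ (aeval x) y (by
        rw [eval₂_sub, eval₂_mul, eval₂_pow, eval₂_X, eval₂_C, eval₂_C]
        show aeval x (C t) * y ^ q - aeval x g = 0
        rw [aeval_C, Algebra.algebraMap_self, RingHom.id_apply, hxy, coe_aeval_eq_eval, sub_self])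
      have hπ : Function.Surjective π := fun a => ⟨algebraMap L' _ a, π.commutes a⟩
      refine ⟨RingHom.ker π, ?_⟩
      rw [(Ideal.quotientKerAlgEquivOfSurjective hπ).toLinearEquiv.finrank_eq, Module.finrank_self]
      intro h1
      exact hq.one_lt.ne' (Nat.dvd_one.1 h1)
    · right
      refine ⟨L', inferInstance, Algebra.id L', inferInstance, u, ?_, hu⟩
      rw [Module.finrank_self]
      intro h1
      exact hq.one_lt.ne' (Nat.dvd_one.1 h1)
  tfae_have 4 → 1 := by
    rintro ⟨z, hz, H⟩
    by_contra hno
    push Not at hno
    obtain ⟨L, _, _, _, _, φ, s, hzs, hobs⟩ := Run7.h846.mainO K R q hq h f hf hn hqn h4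
      hsplit c hh hc hsep z hz hno
    obtain ⟨L', _, _, _, hL', hD⟩ := H L φ s hzs
    set t := h.eval₂ (φ : R →+* L) s with ht
    set g := f.map (eval₂RingHom (φ : R →+* L) s) with hg
    -- extensions of `L'`
    have hext : ∀ (C' : Type) [Field C'] [Algebra L' C'] [FiniteDimensional L' C'],
        ¬ q ∣ Module.finrank L' C' → Run7.h846.Obs q C' (algebraMap L' C' (algebraMap L L' t))
          ((g.map (algebraMap L L')).map (algebraMap L' C')) := by
      intro C' _ _ _ hC'
      let _ : Algebra L C' := ((algebraMap L' C').comp (algebraMap L L')).toAlgebra
      have : IsScalarTower L L' C' := IsScalarTower.of_algebraMap_eq fun _ => rfl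
      have : FiniteDimensional L C' := FiniteDimensional.trans L L' C'
      have h1 := hobs C' (by
        rw [← Module.finrank_mul_finrank L L' C', hq.dvd_mul, not_or]
        exact ⟨hL', hC'⟩)
      rw [Polynomial.map_map]
      exact h1
    rcases hD with ⟨I, hI⟩ | ⟨C', _, _, _, u, hC', hu⟩
    · apply hI
      refine Run7.h846.idx q L' _ ?_ I
      intro C' _ _ _ π
      by_contra hC'
      have h1 := hext C' hC'
      set g' := g.map (algebraMap L L')
      set t' := algebraMap L L' t
      have h2 : π (AdjoinRoot.mk _ (C (C t') * X ^ q - C g' : L'[X][X])) = 0 := by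
        rw [AdjoinRoot.mk_self, map_zero]
      refine Run7.h846.obs_noPoint hq.ne_zero h1 (π (AdjoinRoot.of _ X)) (π (AdjoinRoot.root _)) ?_
      have h3 : π (AdjoinRoot.mk _ (C (C t') * X ^ q - C g' : L'[X][X])) =
          algebraMap L' C' t' * π (AdjoinRoot.root _) ^ q -
            (g'.map (algebraMap L' C')).eval (π (AdjoinRoot.of _ X)) := by
        rw [map_sub, map_mul, map_pow, AdjoinRoot.mk_C, AdjoinRoot.mk_C, AdjoinRoot.mk_X, map_sub,
          map_mul, map_pow]
        congr 1
        · congr 1
          exact π.commutes t'
        · rw [eval_map]
          have h4 : ∀ P : L'[X], π (AdjoinRoot.of (C (C t') * X ^ q - C g' : L'[X][X]) P) =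
              eval₂ (algebraMap L' C') (π (AdjoinRoot.of _ X)) P := by
            intro P
            induction P using Polynomial.induction_on' with
            | add a b ha hb => rw [map_add, map_add, ha, hb, eval₂_add]
            | monomial n a =>
              rw [← C_mul_X_pow_eq_monomial, map_mul, map_mul, map_pow, map_pow, eval₂_mul,
                eval₂_C, eval₂_X_pow]
              congr 1
              exact π.commutes a
          exact h4 g'
      rw [h3, sub_eq_zero] at h2
      exact h2
    · exact (hext C' hC').1 u hu
  tfae_have 1 → 2 := by
    rintro ⟨P, hPm, hPf, hPq⟩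
    obtain ⟨z₀, hz₀, H⟩ := Run7.h846.factor_fibre q R (FractionRing R) f P hPm hPf hPq
    let Q := FractionRing R[X]
    obtain ⟨r, hr1, hr2, hr3⟩ := H Q ((algebraMap R[X] Q).comp C) (algebraMap R[X] Q X) (by
      rw [RingHom.comp_apply, Ne, IsFractionRing.to_map_eq_zero_iff, C_eq_zero]
      exact hz₀)
    have hev : eval₂RingHom ((algebraMap R[X] Q).comp C) (algebraMap R[X] Q X) = algebraMap R[X] Q := by
      ext a
      · simp
      · simp
    rw [hev] at hr2
    have : Fact (Irreducible r) := ⟨hr1⟩
    have hfin : FiniteDimensional Q (AdjoinRoot r) := (AdjoinRoot.powerBasis hr1.ne_zero).finite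
    refine ⟨AdjoinRoot r, inferInstance, inferInstance, hfin, ?_, ?_⟩
    · rw [(AdjoinRoot.powerBasis hr1.ne_zero).finrank, AdjoinRoot.powerBasis_dim]
      exact hr3
    · left
      refine ⟨AdjoinRoot.root r, 0, ?_⟩
      rw [zero_pow hq.ne_zero, mul_zero, eval_map]
      obtain ⟨w, hw⟩ := hr2
      have h1 : eval₂ (algebraMap Q (AdjoinRoot r)) (AdjoinRoot.root r) r = 0 :=
        AdjoinRoot.eval₂_root r
      rw [hw, eval₂_mul, h1, zero_mul]
  tfae_have 2 → 3 := by
    rintro ⟨E, _, _, _, hE, hP⟩
    have hchar : CharZero R := charZero_of_injective_algebraMap (algebraMap K R).injective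
    have hcharQ : CharZero (FractionRing R[X]) :=
      charZero_of_injective_algebraMap (IsFractionRing.injective R[X] (FractionRing R[X]))
    obtain ⟨z, hz, H⟩ := Run7.h846.spread_point q R[X] (FractionRing R[X]) h f E hE hP
    exact ⟨z, hz, fun L _ _ _ φ s hs => H L (eval₂RingHom (φ : R →+* L) s) hs⟩
  tfae_finish

end Pool.Agent.Results.MP_7ede32_ag.SymmetricPowersInFamilies
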